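import Mathlib

namespace Pool.Agent.H.MP_cbe697_nt

open Finset

theorem shift (j : ℕ) : ∀ (n : ℕ) (f : ℕ × ℕ → ℕ), (∀ k l, k < j → f (k, l) = 0) →
    ∑ p ∈ antidiagonal (n + j), f p = ∑ p ∈ antidiagonal n, f (p.1 + j, p.2) := by
  induction j with
  | zero => intro n f _; simp
  | succ j ih =>
    intro n f hf
    rw [← add_assoc, Finset.Nat.sum_antidiagonal_succ, hf 0 _ (by omega), zero_add]
    rw [ih n (fun p => f (p.1 + 1, p.2)) (fun k l hk => hf _ _ (by omega))]
    simp [add_assoc]

theorem inner (A B n j : ℕ) (hj : j ≤ n) :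
    ∑ p ∈ antidiagonal n, A.choose p.1 * p.1.choose j * B.choose p.2
      = A.choose j * (A - j + B).choose (n - j) := by
  obtain ⟨n', rfl⟩ : ∃ n', n = n' + j := ⟨n - j, by omega⟩
  rw [shift j n' _ (fun k l hk => by simp [Nat.choose_eq_zero_of_lt hk]), Nat.add_sub_cancel,
    Nat.add_choose_eq, mul_sum]
  refine sum_congr rfl fun p _ => ?_
  simp only
  rw [Nat.choose_mul (by omega), Nat.add_sub_cancel, mul_assoc]

theorem saal (A B m n d : ℕ) (h : A + B = m + n) :
    ∑ p ∈ antidiagonal n, A.choose p.1 * B.choose p.2 * (p.1 + (m + d)).choose (m + n)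
      = (m + d).choose m * (A + d).choose n := by
  have v : ∀ p ∈ antidiagonal n, (p.1 + (m + d)).choose (m + n)
      = ∑ j ∈ range (n + 1), p.1.choose j * (m + d).choose (m + n - j) := by
    intro p hp
    have hp' := mem_antidiagonal.1 hp
    rw [Nat.add_choose_eq, Finset.Nat.sum_antidiagonal_eq_sum_range_succ_mk]
    symm
    apply sum_subset
    · intro j hj; simp only [mem_range] at *; omega
    · intro j _ hj
      simp only [mem_range] at hj
      simp [Nat.choose_eq_zero_of_lt (show p.1 < j by omega)]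
  rw [sum_congr rfl (fun p hp => by rw [v p hp, mul_sum]), sum_comm,
    Nat.add_choose_eq A d n, Finset.Nat.sum_antidiagonal_eq_sum_range_succ_mk, mul_sum]
  refine sum_congr rfl fun j hj => ?_
  have hj' : j ≤ n := by simp only [mem_range] at hj; omega
  have e : ∑ p ∈ antidiagonal n, A.choose p.1 * B.choose p.2 * (p.1.choose j * (m + d).choose (m + n - j))
      = (∑ p ∈ antidiagonal n, A.choose p.1 * p.1.choose j * B.choose p.2)
        * (m + d).choose (m + n - j) := by
    rw [sum_mul]; exact sum_congr rfl fun p _ => by ring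
  rw [e, inner A B n j hj']
  simp only
  by_cases hA : A < j
  · simp [Nat.choose_eq_zero_of_lt hA]
  · have e1 : A - j + B = m + n - j := by omega
    have e2 : (m + n - j).choose (n - j) = (m + n - j).choose m :=
      Nat.choose_symm_of_eq_add (by omega)
    have e3 := Nat.choose_mul (n := m + d) (k := m + n - j) (s := m) (by omega)
    rw [e1, e2, mul_assoc, mul_comm ((m + n - j).choose m), e3, Nat.add_sub_cancel_left,
      show m + n - j - m = n - j by omega]
    ring

def o (s t x : ℕ) : ℕ := (x + t).choose t * x.choose (s + t)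
def e (s t x : ℕ) : ℕ := x.choose (s + t) * (x + t).choose (s + t)

theorem oe (s t x : ℕ) : x.choose s * o s t x = (s + t).choose t * e s t x := by
  unfold o e
  have := Nat.choose_mul (n := x + t) (k := s + t) (s := t) (by omega)
  rw [Nat.add_sub_cancel, Nat.add_sub_cancel] at this
  calc _ = x.choose (s + t) * ((x + t).choose t * x.choose s) := by ring
    _ = _ := by rw [← this]; ring

theorem eo (s t x : ℕ) : x.choose s * e s t x
    = ∑ p ∈ antidiagonal s, ((s + t).choose p.2 * (s + t + p.1).choose (s + t)) * o s (t + p.1) x := by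
  unfold o e
  by_cases hx : x < s + t
  · rw [Nat.choose_eq_zero_of_lt hx]
    simp only [zero_mul, mul_zero]
    symm
    refine sum_eq_zero fun p _ => ?_
    rw [Nat.choose_eq_zero_of_lt (show x < s + (t + p.1) by omega)]; simp
  · obtain ⟨y, rfl⟩ : ∃ y, x = y + (s + t) := ⟨x - (s + t), by omega⟩
    have S := saal y (s + t) (y + t) s (s + t) (by ring)
    have e1 : (y + t + (s + t)).choose (y + t) = (y + (s + t) + t).choose (s + t) := by
      rw [show y + (s + t) + t = y + t + (s + t) by ring]
      exact Nat.choose_symm_add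
    rw [e1] at S
    calc _ = (y + (s + t)).choose (s + t)
          * ((y + (s + t) + t).choose (s + t) * (y + (s + t)).choose s) := by ring
      _ = _ := by
        rw [← S, mul_sum]
        refine sum_congr rfl fun p _ => ?_
        have c := Nat.choose_mul (n := y + (s + t)) (k := s + t + p.1) (s := s + t) (by omega)
        rw [Nat.add_sub_cancel, Nat.add_sub_cancel_left] at c
        have e2 : (p.1 + (y + t + (s + t))).choose (y + t + s)
            = (y + (s + t) + (t + p.1)).choose (t + p.1) := by
          rw [show p.1 + (y + t + (s + t)) = y + (s + t) + (t + p.1) by ring]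
          exact Nat.choose_symm_of_eq_add (by ring)
        rw [e2, show s + (t + p.1) = s + t + p.1 by ring]
        calc _ = ((y + (s + t)).choose (s + t) * y.choose p.1) * ((s + t).choose p.2
            * (y + (s + t) + (t + p.1)).choose (t + p.1)) := by ring
          _ = _ := by rw [← c]; ring

theorem tel_e (s t n : ℕ) : ∑ x ∈ range n, (2 * (x : ℤ) + 1 - s) * (e s t x : ℤ)
    = (s + t + 1) * (n.choose (s + t + 1) : ℤ) * ((n + t).choose (s + t + 1) : ℤ) := by
  induction n with
  | zero => simp
  | succ n ih =>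
    rw [sum_range_succ, ih, e, show n + 1 + t = (n + t) + 1 by ring, Nat.choose_succ_succ',
      Nat.choose_succ_succ']
    have h1 : ((n.choose (s + t + 1) : ℤ)) * (s + t + 1) = n.choose (s + t) * ((n : ℤ) - (s + t)) := by
      by_cases h : n < s + t
      · simp [Nat.choose_eq_zero_of_lt h, Nat.choose_eq_zero_of_lt (show n < s + t + 1 by omega)]
      · have := Nat.choose_succ_right_eq n (s + t)
        zify [show s + t ≤ n by omega] at this
        exact this
    have h2 : (((n + t).choose (s + t + 1) : ℤ)) * (s + t + 1)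
        = (n + t).choose (s + t) * ((n : ℤ) - s) := by
      by_cases h : n < s
      · simp [Nat.choose_eq_zero_of_lt (show n + t < s + t by omega),
          Nat.choose_eq_zero_of_lt (show n + t < s + t + 1 by omega)]
      · have := Nat.choose_succ_right_eq (n + t) (s + t)
        zify [show s + t ≤ n + t by omega] at this
        rw [this]; ring
    push_cast
    linear_combination (-((n + t).choose (s + t) : ℤ)) * h1 - (n.choose (s + t) : ℤ) * h2

theorem tel_o (s t n : ℕ) : ∑ x ∈ range n, (-1) ^ x * (2 * (x : ℤ) + 1 - s) * (o s t x : ℤ)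
    = -(-1) ^ n * (s + t + 1) * (n.choose (s + t + 1) : ℤ) * ((n + t).choose t : ℤ) := by
  induction n with
  | zero => simp
  | succ n ih =>
    rw [sum_range_succ, ih, o, Nat.choose_succ_succ' n]
    have h1 : ((n.choose (s + t + 1) : ℤ)) * (s + t + 1) = n.choose (s + t) * ((n : ℤ) - (s + t)) := by
      by_cases h : n < s + t
      · simp [Nat.choose_eq_zero_of_lt h, Nat.choose_eq_zero_of_lt (show n < s + t + 1 by omega)]
      · have := Nat.choose_succ_right_eq n (s + t)
        zify [show s + t ≤ n by omega] at this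
        exact this
    have h2 : ((n + 1 + t).choose t : ℤ) * (n + 1) = (n + t).choose t * ((n : ℤ) + t + 1) := by
      have := Nat.choose_mul_succ_eq (n + t) t
      rw [show n + t + 1 - t = n + 1 by omega, show n + t + 1 = n + 1 + t by ring] at this
      zify at this
      rw [← this]; ring
    push_cast
    linear_combination (-(-1) ^ n * (((n + t).choose t : ℤ) + ((n + 1 + t).choose t : ℤ))) * h1
      - (-1) ^ n * (n.choose (s + t) : ℤ) * h2

theorem dv (n a : ℕ) : (n : ℤ) ∣ (a + 1) * (n.choose (a + 1) : ℤ) := by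
  rcases n with _ | n
  · simp
  · have := Nat.add_one_mul_choose_eq n a
    zify at this
    exact ⟨n.choose a, by push_cast; linarith⟩

theorem W (s n : ℕ) : ∀ q t : ℕ,
    ((n : ℤ) ∣ ∑ x ∈ range n, (-1) ^ ((q + 1) * x) * (2 * (x : ℤ) + 1 - s)
      * ((x.choose s : ℤ) ^ q * (o s t x : ℤ))) ∧
    ((n : ℤ) ∣ ∑ x ∈ range n, (-1) ^ (q * x) * (2 * (x : ℤ) + 1 - s)
      * ((x.choose s : ℤ) ^ q * (e s t x : ℤ))) := by
  intro q
  induction q with
  | zero =>
    intro t
    constructor
    · simp only [zero_add, one_mul, pow_zero]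
      rw [tel_o]
      have := dv n (s + t)
      push_cast at this
      rw [mul_assoc (-(-1) ^ n)]
      exact (this.mul_left _).mul_right _
    · simp only [zero_mul, one_mul, pow_zero]
      rw [tel_e]
      have := dv n (s + t)
      push_cast at this
      exact this.mul_right _
  | succ q ih =>
    intro t
    constructor
    · have : ∀ x ∈ range n, (-1) ^ ((q + 1 + 1) * x) * (2 * (x : ℤ) + 1 - s)
          * ((x.choose s : ℤ) ^ (q + 1) * (o s t x : ℤ))
          = ((s + t).choose t : ℤ) * ((-1) ^ (q * x) * (2 * (x : ℤ) + 1 - s)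
            * ((x.choose s : ℤ) ^ q * (e s t x : ℤ))) := by
        intro x _
        have h := oe s t x
        zify at h
        rw [show (q + 1 + 1) * x = q * x + 2 * x by ring, pow_add, pow_mul (-1 : ℤ) 2 x, neg_one_sq,
          one_pow]
        linear_combination ((-1) ^ (q * x) * (2 * (x : ℤ) + 1 - s) * (x.choose s : ℤ) ^ q) * h
      rw [sum_congr rfl this, ← mul_sum]
      exact (ih t).2.mul_left _
    · have : ∀ x ∈ range n, (-1) ^ ((q + 1) * x) * (2 * (x : ℤ) + 1 - s)
          * ((x.choose s : ℤ) ^ (q + 1) * (e s t x : ℤ))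
          = ∑ p ∈ antidiagonal s, (((s + t).choose p.2 * (s + t + p.1).choose (s + t) : ℕ) : ℤ)
            * ((-1) ^ ((q + 1) * x) * (2 * (x : ℤ) + 1 - s)
              * ((x.choose s : ℤ) ^ q * (o s (t + p.1) x : ℤ))) := by
        intro x _
        have h := congrArg (Nat.cast : ℕ → ℤ) (eo s t x)
        rw [Nat.cast_mul, Nat.cast_sum] at h
        rw [pow_succ (x.choose s : ℤ), mul_assoc ((x.choose s : ℤ) ^ q), h, mul_sum, mul_sum]
        refine sum_congr rfl fun p _ => ?_
        push_cast; ring
      rw [sum_congr rfl this, sum_comm]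
      refine dvd_sum fun p _ => ?_
      rw [← mul_sum]
      exact (ih _).1.mul_left _

theorem Wmain (s n r : ℕ) :
    (n : ℤ) ∣ ∑ x ∈ range n, if s ≤ x then (-1) ^ (r * x) * (2 * (x : ℤ) + 1 - s)
      * (x.choose s : ℤ) ^ r else 0 := by
  rcases r with _ | q
  · have : ∀ n : ℕ, (∑ x ∈ range n, if s ≤ x then (-1) ^ (0 * x) * (2 * (x : ℤ) + 1 - s)
        * (x.choose s : ℤ) ^ 0 else 0) = if s ≤ n then (n : ℤ) * (n - s) else 0 := by
      intro n
      induction n with
      | zero => simp
      | succ n ih =>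
        rw [sum_range_succ, ih]
        rcases lt_trichotomy s (n + 1) with h | h | h
        · rw [if_pos (by omega), if_pos (by omega), if_pos (by omega)]; push_cast; ring
        · rw [if_neg (by omega), if_neg (by omega), if_pos (by omega), h]; push_cast; ring
        · rw [if_neg (by omega), if_neg (by omega), if_neg (by omega)]; simp
    rw [this]
    split_ifs
    · exact dvd_mul_right _ _
    · exact dvd_zero _
  · convert (W s n q 0).1 using 2 with x _
    split_ifs with h
    · simp [o, pow_succ]
    · simp [o, Nat.choose_eq_zero_of_lt (show x < s by omega)]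

def Mr (r : ℕ) : ℕ → ℕ → ℕ
  | 0, n => if n = 0 then 1 else 0
  | m + 1, n => ∑ p ∈ antidiagonal n, (n.choose p.1) ^ r * Mr r m p.2

variable {ι : Type} [DecidableEq ι]

theorem decomp (r : ℕ) (s : Finset ι) (i : ι) (hi : i ∉ s) (g : ℕ → ℕ) (n : ℕ) :
    ∑ f ∈ piAntidiag (cons i s hi) n, g (f i) * Nat.multinomial (cons i s hi) f ^ r
      = ∑ p ∈ antidiagonal n, g p.1 * (n.choose p.1) ^ r
        * ∑ f ∈ piAntidiag s p.2, Nat.multinomial s f ^ r := by
  rw [piAntidiag_cons, sum_disjiUnion]
  refine sum_congr rfl fun p hp => ?_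
  rw [sum_map, mul_sum]
  refine sum_congr rfl fun f hf => ?_
  obtain ⟨h1, h2⟩ := mem_piAntidiag.1 hf
  have hfi : f i = 0 := by by_contra h; exact hi (h2 i h)
  have hs : ∀ a ∈ s, (addRightEmbedding (fun t => if t = i then p.1 else 0) f) a = f a := by
    intro a ha
    have : a ≠ i := fun h => hi (h ▸ ha)
    simp [addRightEmbedding, this]
  have hv : (addRightEmbedding (fun t => if t = i then p.1 else 0) f) i = p.1 := by
    simp [addRightEmbedding, hfi]
  rw [Nat.multinomial_cons, hv, sum_congr rfl hs, Nat.multinomial_congr hs, h1,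
    mem_antidiagonal.1 hp, mul_pow, mul_assoc]

theorem M_eq (r : ℕ) (s : Finset ι) :
    ∀ n, ∑ f ∈ piAntidiag s n, Nat.multinomial s f ^ r = Mr r s.card n := by
  induction s using Finset.cons_induction with
  | empty =>
    intro n
    rw [piAntidiag_empty]
    simp only [card_empty, Mr]
    split_ifs <;> simp
  | cons i s hi ih =>
    intro n
    have := decomp r s i hi (fun _ => 1) n
    simp only [one_mul] at this
    rw [this, card_cons, Mr]
    exact sum_congr rfl fun p _ => by rw [ih]

theorem sym (r m n : ℕ) : n * Mr r (m + 1) n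
    = (m + 1) * ∑ p ∈ antidiagonal n, p.1 * (n.choose p.1) ^ r * Mr r m p.2 := by
  have h := M_eq r (range (m + 1)) n
  rw [card_range] at h
  rw [← h, mul_sum]
  have : ∀ f ∈ piAntidiag (range (m + 1)) n, n * Nat.multinomial (range (m + 1)) f ^ r
      = ∑ i ∈ range (m + 1), f i * Nat.multinomial (range (m + 1)) f ^ r := by
    intro f hf
    rw [← sum_mul, (mem_piAntidiag.1 hf).1]
  rw [sum_congr rfl this, sum_comm]
  have k : ∀ i ∈ range (m + 1), ∑ f ∈ piAntidiag (range (m + 1)) n,
      f i * Nat.multinomial (range (m + 1)) f ^ r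
      = ∑ p ∈ antidiagonal n, p.1 * (n.choose p.1) ^ r * Mr r m p.2 := by
    intro i hi
    have d := decomp r ((range (m + 1)).erase i) i (notMem_erase _ _) id n
    have c : cons i ((range (m + 1)).erase i) (notMem_erase _ _) = range (m + 1) := by
      rw [cons_eq_insert, insert_erase hi]
    rw [c] at d
    simp only [id] at d
    rw [d]
    refine sum_congr rfl fun p _ => ?_
    rw [M_eq, card_erase_of_mem hi, card_range, Nat.add_sub_cancel]
  rw [sum_congr rfl k, sum_const, card_range, smul_eq_mul]

theorem main (r m n : ℕ) : (((m + 1 : ℕ) : ℤ) * n) ∣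
    ∑ k ∈ range n, (-1) ^ (r * k) * ((((m + 1 : ℕ) : ℤ) + 1) * k + (m + 1 : ℕ))
      * (Mr r (m + 1) k : ℤ) := by
  have t : ∀ k ∈ range n, (-1) ^ (r * k) * ((((m + 1 : ℕ) : ℤ) + 1) * k + (m + 1 : ℕ))
      * (Mr r (m + 1) k : ℤ) = ((m + 1 : ℕ) : ℤ) * ∑ s ∈ range n, (Mr r m s : ℤ)
        * (if s ≤ k then (-1) ^ (r * k) * (2 * (k : ℤ) + 1 - s) * (k.choose s : ℤ) ^ r else 0) := by
    intro k hk
    have h := congrArg (Nat.cast : ℕ → ℤ) (sym r m k)
    have h0 : (Mr r (m + 1) k : ℤ)
        = ∑ p ∈ antidiagonal k, ((k.choose p.1 : ℤ)) ^ r * (Mr r m p.2 : ℤ) := by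
      rw [Mr]; push_cast; rfl
    have h1 : ∑ s ∈ range n, (Mr r m s : ℤ)
        * (if s ≤ k then (-1) ^ (r * k) * (2 * (k : ℤ) + 1 - s) * (k.choose s : ℤ) ^ r else 0)
        = (-1) ^ (r * k) * ((k + 1) * (Mr r (m + 1) k : ℤ)
          + ∑ p ∈ antidiagonal k, (p.1 : ℤ) * ((k.choose p.1 : ℤ)) ^ r * (Mr r m p.2 : ℤ)) := by
      rw [h0, mul_sum, ← sum_add_distrib, mul_sum, ← Finset.Nat.sum_antidiagonal_swap,
        Finset.Nat.sum_antidiagonal_eq_sum_range_succ_mk]
      symm
      rw [← sum_subset (s₁ := range (k + 1)) (s₂ := range n)]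
      · refine sum_congr rfl fun s hs => ?_
        have hs' : s ≤ k := by simp only [mem_range] at hs; omega
        simp only [Prod.fst_swap, Prod.snd_swap]
        rw [if_pos hs', Nat.choose_symm hs', Nat.cast_sub hs']
        ring
      · intro s hs; simp only [mem_range] at *; omega
      · intro s _ hs
        simp only [mem_range] at hs
        rw [if_neg (by omega), mul_zero]
    rw [h1]
    push_cast at h ⊢
    linear_combination (-1) ^ (r * k) * h
  rw [sum_congr rfl t, ← mul_sum, sum_comm]
  refine mul_dvd_mul_left _ (dvd_sum fun s _ => ?_)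
  rw [← mul_sum]
  exact (Wmain s n r).mul_left _

end Pool.Agent.H.MP_cbe697_nt
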